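import Pool.Agent.H65.CM4.Targets1

/-!
# (LSP) the lattices of prime index
-/

set_option autoImplicit false

open MeasureTheory Set Filter NumberField NumberField.InfinitePlace Pool.Agent.H65.CM4
open scoped Real

namespace Pool.Agent.H70.CM4

section

variable {k : Type} [Field k] [NumberField k]

theorem mem_Lw {I : Ideal (𝓞 k)} {u v : V2 k} : v ∈ Lw I u ↔ u.1 * v.2 - u.2 * v.1 ∈ I := Iff.rfl

theorem Lw_zero {P : Ideal (𝓞 k)} (hP : P.IsPrime) {u : V2 k} (h2 : u.2 ∈ P) (h1 : u.1 ∉ P) :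
    Lw P u = Lw P (1, 0) := by
  ext v
  rw [mem_Lw, mem_Lw]
  have e1 : (1 : 𝓞 k) * v.2 - 0 * v.1 = v.2 := by ring
  change _ ↔ (1 : 𝓞 k) * v.2 - 0 * v.1 ∈ P
  rw [e1, P.sub_mem_iff_left (P.mul_mem_right _ h2)]
  constructor
  · intro h
    exact (hP.mem_or_mem h).resolve_left h1
  · intro h
    exact P.mul_mem_left _ h

theorem Lw_one {P : Ideal (𝓞 k)} (hP : P.IsPrime) {u : V2 k} {c : 𝓞 k} (h2 : u.2 ∉ P)
    (hc : c * u.2 - 1 ∈ P) : Lw P u = Lw P (c * u.1, 1) := by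
  ext v
  rw [mem_Lw, mem_Lw]
  change _ ↔ c * u.1 * v.2 - 1 * v.1 ∈ P
  have e1 : u.2 * (c * u.1 * v.2 - 1 * v.1) - (u.1 * v.2 - u.2 * v.1) =
      (c * u.2 - 1) * (u.1 * v.2) := by ring
  have h3 : u.2 * (c * u.1 * v.2 - 1 * v.1) - (u.1 * v.2 - u.2 * v.1) ∈ P := by
    rw [e1]
    exact P.mul_mem_right _ hc
  constructor
  · intro h
    have h4 : u.2 * (c * u.1 * v.2 - 1 * v.1) ∈ P := (P.sub_mem_iff_left h).1 h3
    exact (hP.mem_or_mem h4).resolve_left h2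
  · intro h
    exact (P.sub_mem_iff_right (P.mul_mem_left _ h)).1 h3

theorem Lw_eq_iff (P : Ideal (𝓞 k)) (x x' : 𝓞 k) : Lw P (x, 1) = Lw P (x', 1) ↔ x - x' ∈ P := by
  constructor
  · intro h
    have h1 : ((x, 1) : V2 k) ∈ Lw P (x, 1) := by
      rw [mem_Lw]
      change x * 1 - 1 * x ∈ P
      have : x * 1 - 1 * x = (0 : 𝓞 k) := by ring
      rw [this]
      exact P.zero_mem
    rw [h, mem_Lw] at h1
    change x' * 1 - 1 * x ∈ P at h1
    have : x - x' = -(x' * 1 - 1 * x) := by ring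
    rw [this]
    exact P.neg_mem h1
  · intro h
    ext v
    rw [mem_Lw, mem_Lw]
    change x * v.2 - 1 * v.1 ∈ P ↔ x' * v.2 - 1 * v.1 ∈ P
    have e1 : x * v.2 - 1 * v.1 = (x' * v.2 - 1 * v.1) + (x - x') * v.2 := by ring
    rw [e1, P.add_mem_iff_left (P.mul_mem_right _ h)]

theorem Lw_ne {P : Ideal (𝓞 k)} (hP : P.IsPrime) (x : 𝓞 k) : Lw P (1, 0) ≠ Lw P (x, 1) := by
  intro h
  have h1 : ((1, 0) : V2 k) ∈ Lw P (1, 0) := by
    rw [mem_Lw]
    change (1 : 𝓞 k) * 0 - 0 * 1 ∈ P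
    have : (1 : 𝓞 k) * 0 - 0 * 1 = 0 := by ring
    rw [this]
    exact P.zero_mem
  rw [h, mem_Lw] at h1
  change x * 0 - 1 * 1 ∈ P at h1
  apply hP.ne_top
  rw [Ideal.eq_top_iff_one]
  have : (1 : 𝓞 k) = -(x * 0 - 1 * 1) := by ring
  rw [this]
  exact P.neg_mem h1

end

variable (k : Type) [Field k] [NumberField k] [IsTotallyReal k]

theorem pf_LSP (hFLS : T_FLS k) : T_LSP k := by
  classical
  intro P hP hne
  have hmax : P.IsMaximal := hP.isMaximal hne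
  have hmem : ∀ L : La k, L ∈ Ls P ↔ ∃ u : V2 k, Cop P u ∧ L = Lw P u := fun L =>
    (hFLS P L hne).1
  have h0 : Lw P ((1, 0) : V2 k) ∈ Ls P := by
    rw [hmem]
    refine ⟨(1, 0), ?_, rfl⟩
    unfold Cop
    rw [Ideal.eq_top_iff_one]
    exact Ideal.mem_sup_left (Ideal.subset_span (by simp))
  have h1 : ∀ x : 𝓞 k, Lw P ((x, 1) : V2 k) ∈ Ls P := by
    intro x
    rw [hmem]
    refine ⟨(x, 1), ?_, rfl⟩
    unfold Cop
    rw [Ideal.eq_top_iff_one]
    exact Ideal.mem_sup_left (Ideal.subset_span (by simp))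
  have h2 : ∀ L ∈ Ls P, L = Lw P ((1, 0) : V2 k) ∨ ∃ x : 𝓞 k, L = Lw P (x, 1) := by
    intro L hL
    obtain ⟨u, hu, rfl⟩ := (hmem L).1 hL
    by_cases hu2 : u.2 ∈ P
    · left
      refine Lw_zero hP hu2 fun hu1 => hP.ne_top ?_
      rw [← top_le_iff, ← hu]
      refine sup_le ?_ le_rfl
      rw [Ideal.span_le]
      rintro z (rfl | rfl)
      · exact hu1
      · exact hu2
    · right
      obtain ⟨c, i, hi, hc⟩ := hmax.exists_inv hu2
      refine ⟨c * u.1, Lw_one hP hu2 ?_⟩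
      have : c * u.2 - 1 = -i := by rw [← hc]; ring
      rw [this]
      exact P.neg_mem hi
  refine ⟨?_, h0, h1, Lw_eq_iff P, h2⟩
  have hfin : Finite (𝓞 k ⧸ P) := Ideal.finiteQuotientOfFreeOfNeBot P hne
  have hft : Fintype (𝓞 k ⧸ P) := Fintype.ofFinite _
  obtain ⟨g, hg⟩ : ∃ g : 𝓞 k ⧸ P → La k, ∀ x : 𝓞 k, g (Ideal.Quotient.mk P x) = Lw P (x, 1) := by
    refine ⟨fun q => Lw P (Quotient.out q, 1), fun x => ?_⟩
    change Lw P (Quotient.out (Ideal.Quotient.mk P x), 1) = _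
    rw [Lw_eq_iff, ← Ideal.Quotient.eq]
    exact Ideal.Quotient.mk_out _
  have hginj : Function.Injective g := by
    intro q q' h
    obtain ⟨x, rfl⟩ := Ideal.Quotient.mk_surjective q
    obtain ⟨x', rfl⟩ := Ideal.Quotient.mk_surjective q'
    rw [hg, hg, Lw_eq_iff] at h
    exact Ideal.Quotient.eq.2 h
  have hset : Ls P = insert (Lw P ((1, 0) : V2 k)) (Finset.univ.image g) := by
    ext L
    rw [Finset.mem_insert, Finset.mem_image]
    constructor
    · intro hL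
      rcases h2 L hL with h3 | ⟨x, hx⟩
      · exact Or.inl h3
      · exact Or.inr ⟨Ideal.Quotient.mk P x, Finset.mem_univ _, by rw [hg, hx]⟩
    · rintro (rfl | ⟨q, -, rfl⟩)
      · exact h0
      · obtain ⟨x, rfl⟩ := Ideal.Quotient.mk_surjective q
        rw [hg]
        exact h1 x
  rw [hset, Finset.card_insert_of_notMem, Finset.card_image_of_injective _ hginj, Finset.card_univ,
    Ideal.absNorm_apply, Submodule.cardQuot_apply, Nat.card_eq_fintype_card]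
  rw [Finset.mem_image]
  rintro ⟨q, -, hq⟩
  obtain ⟨x, rfl⟩ := Ideal.Quotient.mk_surjective q
  rw [hg] at hq
  exact Lw_ne hP x hq.symm

end Pool.Agent.H70.CM4
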